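import Pool.Agent.Y298.GA.RatStm

/-!
# The set of bad coefficient vectors is closed (task GA-RMEA)
-/

set_option autoImplicit false

open Set Filter Metric MeasureTheory Topology Polynomial
open scoped OnePoint

namespace Pool.Agent.Y70.GA

open Pool.Agent.H762R2.Rt Pool.Agent.Helper114.Herman
open Pool.Agent.Y298.GA

variable {d : ℕ}

theorem num_eval (c₀ : ℂ) (a : Fin (d + 1) → ℂ) (z : ℂ) :
    (num c₀ a).eval z = z ^ d + c₀ + ∑ k : Fin (d + 1), a k * z ^ (k : ℕ) := by
  simp [num, eval_finsetSum]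

theorem den_eval (b : Fin d → ℂ) (z : ℂ) :
    (den b).eval z = 1 + ∑ k : Fin d, b k * z ^ ((k : ℕ) + 1) := by
  simp [den, eval_finsetSum]

theorem num_der (c₀ : ℂ) (a : Fin (d + 1) → ℂ) (z : ℂ) :
    (derivative (num c₀ a)).eval z = d * z ^ (d - 1) +
      ∑ k : Fin (d + 1), a k * ((k : ℕ) : ℂ) * z ^ ((k : ℕ) - 1) := by
  simp [num, eval_finsetSum, derivative_sum, derivative_X_pow, mul_assoc]

theorem den_der (b : Fin d → ℂ) (z : ℂ) :
    (derivative (den b)).eval z =
      ∑ k : Fin d, b k * (((k : ℕ) : ℂ) + 1) * z ^ (k : ℕ) := by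
  simp [den, eval_finsetSum, derivative_sum, derivative_X_pow, mul_assoc]

abbrev XX (d : ℕ) : Type := (Fin d → ℂ) × (Fin (d + 1) → ℂ)

theorem num_cont (c₀ : ℂ) : Continuous fun p : XX d × ℂ => (num c₀ p.1.2).eval p.2 := by
  simp only [num_eval]
  fun_prop

theorem den_cont : Continuous fun p : XX d × ℂ => (den p.1.1).eval p.2 := by
  simp only [den_eval]
  fun_prop

theorem wro_cont (c₀ : ℂ) :
    Continuous fun p : XX d × ℂ => (wro (num c₀ p.1.2) (den p.1.1)).eval p.2 := by
  have h1 : Continuous fun p : XX d × ℂ => (derivative (num c₀ p.1.2)).eval p.2 := by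
    simp only [num_der]
    fun_prop
  have h2 : Continuous fun p : XX d × ℂ => (derivative (den p.1.1)).eval p.2 := by
    simp only [den_der]
    fun_prop
  unfold wro
  simp only [eval_sub, eval_mul]
  exact (h1.mul den_cont).sub ((num_cont c₀).mul h2)

theorem nr_of {c₀ : ℂ} {r : ℝ} (hr : 0 ≤ r) {x : XX d} (hx : ‖x‖ ≤ r) :
    Nr d c₀ r (num c₀ x.2) (den x.1) := by
  have ha : ∀ k, ‖x.2 k‖ ≤ r := fun k =>
    (norm_le_pi_norm x.2 k).trans ((norm_snd_le x).trans hx)
  have hb : ∀ k, ‖x.1 k‖ ≤ r := fun k =>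
    (norm_le_pi_norm x.1 k).trans ((norm_fst_le x).trans hx)
  refine ⟨?_, ?_, ?_, ?_⟩
  · unfold num
    refine (natDegree_add_le _ _).trans (max_le ((natDegree_add_le _ _).trans (max_le ?_ ?_)) ?_)
    · exact natDegree_X_pow_le d
    · rw [natDegree_C]
      exact Nat.zero_le _
    · refine natDegree_sum_le_of_forall_le _ _ fun k _ => ?_
      exact (natDegree_C_mul_X_pow_le _ _).trans (by omega)
  · unfold den
    refine (natDegree_add_le _ _).trans (max_le ?_ ?_)
    · rw [natDegree_one]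
      exact Nat.zero_le _
    · refine natDegree_sum_le_of_forall_le _ _ fun k _ => ?_
      exact (natDegree_C_mul_X_pow_le _ _).trans (by omega)
  · intro i
    unfold num
    rw [coeff_add, add_sub_cancel_left, finsetSum_coeff]
    simp only [coeff_C_mul_X_pow]
    by_cases h : i < d + 1
    · rw [Finset.sum_eq_single ⟨i, h⟩]
      · simpa using ha ⟨i, h⟩
      · intro k _ hk
        rw [if_neg]
        intro h'
        exact hk (Fin.ext h'.symm)
      · intro h'
        exact absurd (Finset.mem_univ _) h'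
    · rw [Finset.sum_eq_zero]
      · simpa using hr
      · intro k _
        rw [if_neg]
        intro h'
        exact h (h' ▸ k.2)
  · intro i
    unfold den
    rw [coeff_add, add_sub_cancel_left, finsetSum_coeff]
    simp only [coeff_C_mul_X_pow]
    by_cases h : 1 ≤ i ∧ i - 1 < d
    · rw [Finset.sum_eq_single ⟨i - 1, h.2⟩]
      · rw [if_pos (by simp only; omega)]
        exact hb _
      · intro k _ hk
        rw [if_neg]
        intro h'
        apply hk
        apply Fin.ext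
        simp only
        omega
      · intro h'
        exact absurd (Finset.mem_univ _) h'
    · rw [Finset.sum_eq_zero]
      · simpa using hr
      · intro k _
        rw [if_neg]
        intro h'
        apply h
        have := k.2
        omega

/-- the map -/
noncomputable def gm (c₀ : ℂ) (x : XX d) : ℂ → ℂ := fun y => (num c₀ x.2).eval y / (den x.1).eval y

/-- the conditions with the indices below `n` -/
def EE (c₀ : ℂ) (r : ℝ) (n : ℕ) : Set (XX d × ℂ) :=
  {p | (‖p.1‖ ≤ r ∧ ‖p.2‖ ≤ 5 / 2 ∧ (wro (num c₀ p.1.2) (den p.1.1)).eval p.2 = 0) ∧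
    ∀ k < n, ‖(gm c₀ p.1)^[k] (gm c₀ p.1 p.2)‖ ≤ 5 / 2}

theorem step {c₀ : ℂ} {r : ℝ} (hden : ∀ (x : XX d) (z : ℂ), ‖x‖ ≤ r → ‖z‖ ≤ 5 / 2 →
    (den x.1).eval z ≠ 0) (n : ℕ) :
    IsClosed (EE (d := d) c₀ r n) ∧
      ContinuousOn (fun p : XX d × ℂ => (gm c₀ p.1)^[n] (gm c₀ p.1 p.2)) (EE c₀ r n) := by
  induction n with
  | zero =>
    constructor
    · have h1 : EE (d := d) c₀ r 0 = {p | ‖p.1‖ ≤ r} ∩ ({p | ‖p.2‖ ≤ 5 / 2} ∩
          {p | (wro (num c₀ p.1.2) (den p.1.1)).eval p.2 = 0}) := by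
        ext p
        simp [EE]
      rw [h1]
      exact (isClosed_le (by fun_prop) continuous_const).inter
        ((isClosed_le (by fun_prop) continuous_const).inter
          (isClosed_eq (wro_cont c₀) continuous_const))
    · exact ContinuousOn.div (num_cont c₀).continuousOn den_cont.continuousOn
        (fun p hp => hden _ _ hp.1.1 hp.1.2.1)
  | succ n ih =>
    obtain ⟨h1, h2⟩ := ih
    have h3 : EE (d := d) c₀ r (n + 1) = EE c₀ r n ∩
        (fun p : XX d × ℂ => (gm c₀ p.1)^[n] (gm c₀ p.1 p.2)) ⁻¹' closedBall 0 (5 / 2) := by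
      ext p
      constructor
      · rintro ⟨h4, h5⟩
        refine ⟨⟨h4, fun k hk => h5 k (by omega)⟩, ?_⟩
        rw [mem_preimage, mem_closedBall_zero_iff]
        exact h5 n (by omega)
      · rintro ⟨⟨h4, h5⟩, h6⟩
        rw [mem_preimage, mem_closedBall_zero_iff] at h6
        refine ⟨h4, fun k hk => ?_⟩
        rcases Nat.lt_succ_iff_lt_or_eq.1 hk with h7 | h7
        · exact h5 k h7
        · rw [h7]
          exact h6
    constructor
    · rw [h3]
      exact h2.preimage_isClosed_of_isClosed h1 isClosed_closedBall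
    · have h4 : ContinuousOn (fun p : XX d × ℂ =>
          ((p.1, (gm c₀ p.1)^[n] (gm c₀ p.1 p.2)) : XX d × ℂ)) (EE c₀ r (n + 1)) :=
        continuousOn_fst.prodMk (h2.mono (by rw [h3]; exact inter_subset_left))
      have h5 : ContinuousOn (fun p : XX d × ℂ =>
          (num c₀ p.1.2).eval ((gm c₀ p.1)^[n] (gm c₀ p.1 p.2)) /
            (den p.1.1).eval ((gm c₀ p.1)^[n] (gm c₀ p.1 p.2))) (EE c₀ r (n + 1)) := by
        refine ContinuousOn.div ((num_cont c₀).comp_continuousOn h4)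
          (den_cont.comp_continuousOn h4) fun p hp => ?_
        exact hden _ _ hp.1.1 (hp.2 n (by omega))
      refine h5.congr fun p _ => ?_
      rw [Function.iterate_succ_apply']
      rfl

theorem rmea (hbas : S_RBAS) : S_RMEA := by
  intro d hd
  obtain ⟨K, δ, -, hδ0, hδ1, hb⟩ := hbas d hd
  refine ⟨δ, hδ0, hδ1, fun c₀ r hc hr => ?_⟩
  rcases lt_or_ge r 0 with hr0 | hr0
  · have : {x : (Fin d → ℂ) × (Fin (d + 1) → ℂ) | ‖x‖ ≤ r ∧ Bd (num c₀ x.2) (den x.1)} = ∅ := by
      rw [eq_empty_iff_forall_notMem]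
      rintro x ⟨hx, -⟩
      linarith [norm_nonneg x]
    rw [this]
    exact isClosed_empty
  have hden : ∀ (x : XX d) (z : ℂ), ‖x‖ ≤ r → ‖z‖ ≤ 5 / 2 → (den x.1).eval z ≠ 0 := by
    intro x z hx hz h0
    obtain ⟨h1, -⟩ := hb c₀ r (num c₀ x.2) (den x.1) hc hr0 hr (nr_of hr0 hx)
    have h2 := h1 z (by rw [mem_ball_zero_iff]; linarith)
    rw [h0, norm_zero] at h2
    linarith
  have hcl : IsClosed (⋂ n, EE (d := d) c₀ r n) := isClosed_iInter fun n => (step hden n).1
  have hcomp : IsCompact (⋂ n, EE (d := d) c₀ r n) := by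
    refine IsCompact.of_isClosed_subset
      ((isCompact_closedBall (0 : XX d) r).prod (isCompact_closedBall (0 : ℂ) (5 / 2))) hcl ?_
    intro p hp
    have h1 := mem_iInter.1 hp 0
    refine ⟨?_, ?_⟩
    · rw [mem_closedBall_zero_iff]
      exact h1.1.1
    · rw [mem_closedBall_zero_iff]
      exact h1.1.2.1
  have hset : {x : (Fin d → ℂ) × (Fin (d + 1) → ℂ) | ‖x‖ ≤ r ∧ Bd (num c₀ x.2) (den x.1)} =
      Prod.fst '' (⋂ n, EE (d := d) c₀ r n) := by
    ext x
    constructor
    · rintro ⟨hx, z, h1, h2, h3⟩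
      refine ⟨(x, z), mem_iInter.2 fun n => ⟨⟨hx, h1, h2⟩, fun k _ => h3 k⟩, rfl⟩
    · rintro ⟨⟨x', z⟩, hp, rfl⟩
      rw [mem_iInter] at hp
      exact ⟨(hp 0).1.1, z, (hp 0).1.2.1, (hp 0).1.2.2, fun n => (hp (n + 1)).2 n (by omega)⟩
  rw [hset]
  exact (hcomp.image continuous_fst).isClosed

end Pool.Agent.Y70.GA
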